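import Pool.Agent.H26.LpSurfMain2

namespace Pool.Agent.Results.MP_46ea74_gt.Disproof

open Pool.Agent.H26.LpSurf2

/-- For every dimension `n ≥ 2` and every `p` with `0 < p < 1` there are convex bodies
`K, L ⊂ ℝⁿ` with the origin in their interiors such that, with `μK, μL, μM` the surface area
measures of `K`, `L`, `K + L`, one has `σ_p(K + L) < σ_p(K) + σ_p(L)`. -/
theorem result (n : ℕ) (hn : 2 ≤ n) (p : ℝ) (hp0 : 0 < p) (hp1 : p < 1) :
    ∃ K L : Set (E n), ∃ μK μL μM : SphMeasure n,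
      IsConvexBody K ∧ IsConvexBody L ∧ OriginInside K ∧ OriginInside L ∧
      IsSurfaceAreaMeasure K μK ∧ IsSurfaceAreaMeasure L μL ∧
      IsSurfaceAreaMeasure (msum K L) μM ∧ HasSp p K μK ∧ HasSp p L μL ∧ HasSp p (msum K L) μM ∧
      sigmaP p (msum K L) μM < sigmaP p K μK + sigmaP p L μL :=
  main2 n hn p hp0 hp1

end Pool.Agent.Results.MP_46ea74_gt.Disproof
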